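import Pool.Agent.Helper51.PP.Spec

set_option autoImplicit false

namespace Pool.Agent.Helper99.PC.NASH

open Pool.Agent.Helper51.PP
open scoped BigOperators

/-- Abstract form. -/
theorem core {X E : Type} [Fintype E] (S : E → X → X) (hS : ∀ e, Function.Bijective (S e))
    (D c : ℝ) (hD : 2 ≤ D) (hc : (Fintype.card E : ℝ) = c) (u : X → ℝ)
    (hu : (Function.support u).Finite)
    (hSB : ∑' y, |u y ^ 2| ^ (D / (D - 1)) ≤
      (∑ e, ∑' y, |u (S e y) ^ 2 - u y ^ 2|) ^ (D / (D - 1))) :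
    (∑' y, (u y) ^ 2) ^ (1 + 2 / D) ≤ 4 * c * (∑' y, |u y|) ^ (4 / D) *
      ∑ e, ∑' y, (u (S e y) - u y) ^ 2 := by
  classical
  -- the finite set
  have hpre : ∀ e, (S e ⁻¹' (Function.support u)).Finite := fun e =>
    hu.preimage ((hS e).1.injOn)
  have hFfin : (Function.support u ∪ ⋃ e, S e ⁻¹' (Function.support u)).Finite :=
    hu.union (Set.finite_iUnion hpre)
  set F : Finset X := hFfin.toFinset with hF
  have hF1 : ∀ y, y ∉ F → u y = 0 := by
    intro y hy
    rw [hF, Set.Finite.mem_toFinset, Set.mem_union, not_or] at hy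
    simpa using hy.1
  have hF2 : ∀ e y, y ∉ F → u (S e y) = 0 := by
    intro e y hy
    rw [hF, Set.Finite.mem_toFinset, Set.mem_union, not_or, Set.mem_iUnion, not_exists] at hy
    simpa using hy.2 e
  have hA : ∑' y, (u y) ^ 2 = ∑ y ∈ F, (u y) ^ 2 :=
    tsum_eq_sum fun y hy => by rw [hF1 y hy]; simp
  have hL : ∑' y, |u y| = ∑ y ∈ F, |u y| :=
    tsum_eq_sum fun y hy => by rw [hF1 y hy]; simp
  have hD1 : 0 < D - 1 := by linarith
  have hD0 : 0 < D := by linarith
  have hp0 : 0 < D / (D - 1) := div_pos hD0 hD1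
  have hQ : ∑' y, |u y ^ 2| ^ (D / (D - 1)) = ∑ y ∈ F, |u y ^ 2| ^ (D / (D - 1)) :=
    tsum_eq_sum fun y hy => by rw [hF1 y hy]; simp [Real.zero_rpow hp0.ne']
  have hE : ∀ e, ∑' y, (u (S e y) - u y) ^ 2 = ∑ y ∈ F, (u (S e y) - u y) ^ 2 := fun e =>
    tsum_eq_sum fun y hy => by rw [hF1 y hy, hF2 e y hy]; simp
  have hW : ∀ e, ∑' y, |u (S e y) ^ 2 - u y ^ 2| = ∑ y ∈ F, |u (S e y) ^ 2 - u y ^ 2| :=
    fun e => tsum_eq_sum fun y hy => by rw [hF1 y hy, hF2 e y hy]; simp
  have hAS : ∀ e, ∑ y ∈ F, u (S e y) ^ 2 = ∑ y ∈ F, u y ^ 2 := by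
    intro e
    have h1 : ∑' y, u (S e y) ^ 2 = ∑ y ∈ F, u (S e y) ^ 2 :=
      tsum_eq_sum fun y hy => by rw [hF2 e y hy]; simp
    rw [← h1, ← hA]
    exact (Equiv.ofBijective (S e) (hS e)).tsum_eq (fun y => u y ^ 2)
  set A : ℝ := ∑ y ∈ F, (u y) ^ 2 with hAdef
  set L : ℝ := ∑ y ∈ F, |u y| with hLdef
  set Q : ℝ := ∑ y ∈ F, |u y ^ 2| ^ (D / (D - 1)) with hQdef
  set EE : ℝ := ∑ e, ∑ y ∈ F, (u (S e y) - u y) ^ 2 with hEEdef
  set W : ℝ := ∑ e, ∑ y ∈ F, |u (S e y) ^ 2 - u y ^ 2| with hWdef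
  have hA0 : 0 ≤ A := Finset.sum_nonneg fun y _ => sq_nonneg _
  have hL0 : 0 ≤ L := Finset.sum_nonneg fun y _ => abs_nonneg _
  have hQ0 : 0 ≤ Q := Finset.sum_nonneg fun y _ => by positivity
  have hEE0 : 0 ≤ EE := Finset.sum_nonneg fun e _ => Finset.sum_nonneg fun y _ => sq_nonneg _
  have hW0 : 0 ≤ W := Finset.sum_nonneg fun e _ => Finset.sum_nonneg fun y _ => abs_nonneg _
  have hc0 : 0 ≤ c := by rw [← hc]; positivity
  have hSB' : Q ≤ W ^ (D / (D - 1)) := by
    rw [hQ] at hSB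
    simp only [hW] at hSB
    exact hSB
  rw [hA, hL]
  simp only [hE]
  change A ^ (1 + 2 / D) ≤ 4 * c * L ^ (4 / D) * EE
  -- Cauchy-Schwarz
  have hWsq : W ^ 2 ≤ 4 * c * EE * A := by
    have h1 : W = ∑ q ∈ (Finset.univ : Finset E) ×ˢ F,
        |u (S q.1 q.2) - u q.2| * |u (S q.1 q.2) + u q.2| := by
      rw [hWdef, Finset.sum_product]
      refine Finset.sum_congr rfl fun e _ => Finset.sum_congr rfl fun y _ => ?_
      rw [← abs_mul]
      congr 1
      ring
    have h2 := Finset.sum_mul_sq_le_sq_mul_sq ((Finset.univ : Finset E) ×ˢ F)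
      (fun q => |u (S q.1 q.2) - u q.2|) (fun q => |u (S q.1 q.2) + u q.2|)
    rw [← h1] at h2
    have h3 : ∑ q ∈ (Finset.univ : Finset E) ×ˢ F, |u (S q.1 q.2) - u q.2| ^ 2 = EE := by
      rw [hEEdef, Finset.sum_product]
      refine Finset.sum_congr rfl fun e _ => Finset.sum_congr rfl fun y _ => ?_
      exact sq_abs _
    have h4 : ∑ q ∈ (Finset.univ : Finset E) ×ˢ F, |u (S q.1 q.2) + u q.2| ^ 2 ≤
        4 * c * A := by
      rw [Finset.sum_product]
      have h5 : ∀ e ∈ (Finset.univ : Finset E), ∑ y ∈ F, |u (S e y) + u y| ^ 2 ≤ 4 * A := by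
        intro e _
        calc ∑ y ∈ F, |u (S e y) + u y| ^ 2 ≤ ∑ y ∈ F, (2 * u (S e y) ^ 2 + 2 * u y ^ 2) := by
              refine Finset.sum_le_sum fun y _ => ?_
              rw [sq_abs]
              nlinarith [sq_nonneg (u (S e y) - u y)]
          _ = 4 * A := by
              rw [Finset.sum_add_distrib, ← Finset.mul_sum, ← Finset.mul_sum, hAS e]
              ring
      refine (Finset.sum_le_sum h5).trans (le_of_eq ?_)
      rw [Finset.sum_const, Finset.card_univ, nsmul_eq_mul, hc]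
      ring
    rw [h3] at h2
    calc W ^ 2 ≤ EE * _ := h2
      _ ≤ EE * (4 * c * A) := mul_le_mul_of_nonneg_left h4 hEE0
      _ = 4 * c * EE * A := by ring
  -- Hoelder
  have hHol : A ≤ L ^ (2 / (D + 1)) * Q ^ ((D - 1) / (D + 1)) := by
    have hpq : ((D + 1) / 2).HolderConjugate ((D + 1) / (D - 1)) := by
      rw [Real.holderConjugate_iff]
      refine ⟨by rw [lt_div_iff₀ (by norm_num)]; linarith, ?_⟩
      rw [inv_div, inv_div, ← add_div, div_eq_one_iff_eq (by linarith)]
      ring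
    have h := Real.inner_le_Lp_mul_Lq_of_nonneg F hpq (f := fun y => |u y| ^ (2 / (D + 1)))
      (g := fun y => |u y ^ 2| ^ (D / (D + 1)))
      (fun y _ => by positivity) (fun y _ => by positivity)
    have e1 : ∑ y ∈ F, |u y| ^ (2 / (D + 1)) * |u y ^ 2| ^ (D / (D + 1)) = A := by
      rw [hAdef]
      refine Finset.sum_congr rfl fun y _ => ?_
      rw [abs_pow, ← Real.rpow_natCast (|u y|) 2, ← Real.rpow_mul (abs_nonneg _),
        ← Real.rpow_add_of_nonneg (abs_nonneg _) (by positivity) (by positivity)]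
      have : 2 / (D + 1) + ((2 : ℕ) : ℝ) * (D / (D + 1)) = ((2 : ℕ) : ℝ) := by
        push_cast; field_simp; ring
      rw [this, Real.rpow_natCast, sq_abs]
    have e2 : ∑ y ∈ F, (|u y| ^ (2 / (D + 1))) ^ ((D + 1) / 2) = L := by
      rw [hLdef]
      refine Finset.sum_congr rfl fun y _ => ?_
      rw [← Real.rpow_mul (abs_nonneg _)]
      have : 2 / (D + 1) * ((D + 1) / 2) = 1 := by field_simp
      rw [this, Real.rpow_one]
    have e3 : ∑ y ∈ F, (|u y ^ 2| ^ (D / (D + 1))) ^ ((D + 1) / (D - 1)) = Q := by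
      rw [hQdef]
      refine Finset.sum_congr rfl fun y _ => ?_
      rw [← Real.rpow_mul (abs_nonneg _)]
      have : D / (D + 1) * ((D + 1) / (D - 1)) = D / (D - 1) := by
        have : D + 1 ≠ 0 := by positivity
        field_simp
      rw [this]
    simp only [e1, e2, e3] at h
    have e4 : 1 / ((D + 1) / 2) = 2 / (D + 1) := by rw [one_div_div]
    have e5 : 1 / ((D + 1) / (D - 1)) = (D - 1) / (D + 1) := by rw [one_div_div]
    rw [e4, e5] at h
    exact h
  -- combine
  have h1 : A ≤ L ^ (2 / (D + 1)) * W ^ (D / (D + 1)) := by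
    refine hHol.trans (mul_le_mul_of_nonneg_left ?_ (by positivity))
    calc Q ^ ((D - 1) / (D + 1)) ≤ (W ^ (D / (D - 1))) ^ ((D - 1) / (D + 1)) :=
          Real.rpow_le_rpow hQ0 hSB' (by positivity)
      _ = W ^ (D / (D + 1)) := by
          rw [← Real.rpow_mul hW0]
          congr 1
          have : D + 1 ≠ 0 := by positivity
          have : D - 1 ≠ 0 := hD1.ne'
          field_simp
  have h2 : A ^ (2 * (D + 1) / D) ≤ L ^ (4 / D) * W ^ 2 := by
    calc A ^ (2 * (D + 1) / D) ≤ (L ^ (2 / (D + 1)) * W ^ (D / (D + 1))) ^ (2 * (D + 1) / D) :=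
          Real.rpow_le_rpow hA0 h1 (by positivity)
      _ = L ^ (4 / D) * W ^ 2 := by
          rw [Real.mul_rpow (by positivity) (by positivity), ← Real.rpow_mul hL0,
            ← Real.rpow_mul hW0, ← Real.rpow_natCast W 2]
          have : D + 1 ≠ 0 := by positivity
          congr 2
          · field_simp; norm_num
          · push_cast; field_simp
  rcases hA0.eq_or_lt with hA' | hA'
  · rw [← hA', Real.zero_rpow (by positivity)]
    positivity
  · have h3 : A ^ (2 * (D + 1) / D) = A ^ (1 + 2 / D) * A := by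
      have : 2 * (D + 1) / D = (1 + 2 / D) + 1 := by field_simp; ring
      rw [this, Real.rpow_add hA', Real.rpow_one]
    rw [h3] at h2
    have h4 : A ^ (1 + 2 / D) * A ≤ (4 * c * L ^ (4 / D) * EE) * A := by
      refine h2.trans ?_
      calc L ^ (4 / D) * W ^ 2 ≤ L ^ (4 / D) * (4 * c * EE * A) :=
            mul_le_mul_of_nonneg_left hWsq (by positivity)
        _ = (4 * c * L ^ (4 / D) * EE) * A := by ring
    exact le_of_mul_le_mul_right h4 hA'

theorem main (hSB : S_SB) (hG : S_GEO1) : S_NASH := by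
  intro d hd ω hω u hu
  have hr := hG d ω hω
  have hb : ∀ e, Function.Bijective (fun y => nxO ω hω y e) := by
    intro e
    constructor
    · exact Function.LeftInverse.injective (g := fun y => nxO ω hω y (revD e))
        fun y => hr.back y e
    · intro y
      refine ⟨nxO ω hω y (revD e), ?_⟩
      have := hr.back y (revD e)
      rw [hr.inv] at this
      exact this
  have hS : ∀ e, Function.Bijective (fun y => nxO ω hω (nxO ω hω y e) e) := fun e =>
    (hb e).comp (hb e)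
  have hu2 : (Function.support fun y => u y ^ 2).Finite := by
    refine hu.subset fun y hy => ?_
    rw [Function.mem_support] at hy ⊢
    intro h
    exact hy (by rw [h]; norm_num)
  have h := core (fun e y => nxO ω hω (nxO ω hω y e) e) hS (d : ℝ) (2 * (d : ℝ))
    (by exact_mod_cast hd) (by simp [Fintype.card_prod]; ring) u hu
    (hSB d hd ω hω (fun y => u y ^ 2) hu2)
  refine h.trans (le_of_eq ?_)
  ring

end Pool.Agent.Helper99.PC.NASH
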